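import Pool.Agent.W2helper3.BQ.Lc
import Pool.Agent.W2helper3.BQ.Stm3
import Pool.Agent.W2helper75.BQ.BRA

/-!
# Project BQ3 (MP_dd244f_an), piece LC3: the integrated bound
-/

set_option autoImplicit false

open MeasureTheory Set Filter Topology
open scoped SchwartzMap ENNReal ContDiff BigOperators Interval

namespace Pool.Agent.W2helper3.BQ

namespace LC3H2

theorem lint_shift {f : ℝ → ℝ} (hf : Continuous f) (hfc : HasCompactSupport f)
    (h0 : ∀ u, 0 ≤ f u) (v : ℝ) :
    ∫⁻ u, ENNReal.ofReal (f (u + v)) = ENNReal.ofReal (∫ u, f u) := by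
  rw [lintegral_add_right_eq_self (fun u => ENNReal.ofReal (f u)) v,
    ofReal_integral_eq_lintegral_ofReal (hf.integrable_of_hasCompactSupport hfc)
      (Eventually.of_forall h0)]

theorem abs_bound {f : ℝ → ℝ} (hf : Continuous f) (h0 : ∀ u, 0 ≤ f u) (u v : ℝ) :
    ENNReal.ofReal |∫ t in (u + v)..u, f t| ≤
      ∫⁻ s in Ι v 0, ENNReal.ofReal (f (u + s)) := by
  have h1 : ∫ t in (u + v)..u, f t = ∫ s in v..0, f (u + s) := by
    rw [intervalIntegral.integral_comp_add_left, add_zero]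
  have hc : Continuous fun s => f (u + s) := hf.comp (continuous_const_add u)
  have hi : IntegrableOn (fun s => f (u + s)) (Ι v 0) :=
    (intervalIntegrable_iff.1 (hc.intervalIntegrable v 0))
  have h2 : |∫ s in v..0, f (u + s)| ≤ ∫ s in Ι v 0, f (u + s) := by
    have h3 := intervalIntegral.norm_integral_le_integral_norm_uIoc
      (f := fun s => f (u + s)) (a := v) (b := 0) (μ := volume)
    rw [Real.norm_eq_abs] at h3
    refine h3.trans (le_of_eq ?_)
    refine integral_congr_ae (Eventually.of_forall fun s => ?_)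
    exact Real.norm_of_nonneg (h0 _)
  rw [h1]
  refine (ENNReal.ofReal_le_ofReal h2).trans (le_of_eq ?_)
  rw [ofReal_integral_eq_lintegral_ofReal hi (Eventually.of_forall fun s => h0 _)]

theorem lint_abs {f : ℝ → ℝ} (hf : Continuous f) (hfc : HasCompactSupport f)
    (h0 : ∀ u, 0 ≤ f u) (v : ℝ) :
    ∫⁻ u, ENNReal.ofReal |∫ t in (u + v)..u, f t| ≤
      ENNReal.ofReal |v| * ENNReal.ofReal (∫ u, f u) := by
  refine (lintegral_mono fun u => abs_bound hf h0 u v).trans ?_
  have hm : Measurable fun q : ℝ × ℝ => ENNReal.ofReal (f (q.1 + q.2)) :=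
    (hf.comp (continuous_fst.add continuous_snd)).measurable.ennreal_ofReal
  rw [lintegral_lintegral_swap (μ := volume) (ν := volume.restrict (Ι v 0))
    (f := fun u s => ENNReal.ofReal (f (u + s))) hm.aemeasurable]
  simp_rw [lint_shift hf hfc h0]
  rw [lintegral_const, Measure.restrict_apply MeasurableSet.univ, univ_inter, mul_comm,
    Real.volume_uIoc, zero_sub, abs_neg]

theorem sh_int {μ : Measure ℝ} [IsFiniteMeasure μ] {A : ℝ → ℝ} (hA : Continuous A)
    (hs : HasCompactSupport A) (u : ℝ) : Integrable (fun v => A (u + v)) μ := by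
  have hc : Continuous (fun v => A (u + v)) := by fun_prop
  exact hc.integrable_of_hasCompactSupport (hs.comp_homeomorph (Homeomorph.addLeft u))

theorem cs_of {R : ℝ} (f : ℝ → ℝ) (hf : ∀ u, R ≤ |u| → f u = 0) : HasCompactSupport f := by
  refine HasCompactSupport.intro (isCompact_Icc (a := -R) (b := R)) fun u hu => ?_
  refine hf u ?_
  by_contra h
  rw [not_le, abs_lt] at h
  exact hu ⟨h.1.le, h.2.le⟩

theorem hrc {r : ℝ} (hr0 : 0 < r) {H : ℝ → ℝ → ℂ} (hH : Continuous (Function.uncurry H)) :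
    Continuous (hr r H) := by
  unfold hr
  exact av_cont (hH.norm.rpow_const (fun _ => Or.inr hr0.le))

theorem hrn (r : ℝ) (H : ℝ → ℝ → ℂ) (u : ℝ) : 0 ≤ hr r H u :=
  av_nonneg fun t => Real.rpow_nonneg (norm_nonneg _) _

theorem hrs {r : ℝ} (hr0 : 0 < r) {H : ℝ → ℝ → ℂ} {R : ℝ}
    (hR : ∀ u, R ≤ |u| → ∀ s, H u s = 0) : HasCompactSupport (hr r H) := by
  refine cs_of (R := R) _ fun u hu => ?_
  unfold hr
  simp only [hR u hu, norm_zero, Real.zero_rpow hr0.ne']
  exact av_const 0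

/-- Jensen for a probability measure -/
theorem jen {μ : Measure ℝ} (hμ : IsProbabilityMeasure μ) {q : ℝ} (hq : 1 ≤ q) {f : ℝ → ℝ}
    (hf : Continuous f) (hs : HasCompactSupport f) (h0 : ∀ u, 0 ≤ f u) (u : ℝ) :
    (∫ v, f (u + v) ∂μ) ^ q ≤ ∫ v, f (u + v) ^ q ∂μ := by
  have hi := sh_int (μ := μ) hf hs u
  have hfq : Continuous (fun u => f u ^ q) := hf.rpow_const (fun _ => Or.inr (by linarith))
  have hsq : HasCompactSupport (fun u => f u ^ q) :=
    hs.comp_left (g := fun y : ℝ => y ^ q) (Real.zero_rpow (by linarith))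
  have hi2 := sh_int (μ := μ) hfq hsq u
  exact (convexOn_rpow hq).map_integral_le
    (continuousOn_id.rpow_const (fun _ _ => Or.inr (by linarith))) isClosed_Ici
    (Eventually.of_forall fun v => h0 _) hi hi2

/-- Jensen on the circle -/
theorem hr_pow {p q : ℝ} (hq : 0 < q) (hqp : q ≤ p) {H : ℝ → ℝ → ℂ}
    (hH : Continuous (Function.uncurry H)) (u : ℝ) : (hr q H u) ^ (p / q) ≤ hr p H u := by
  have h1 : Continuous fun s => ‖H u s‖ ^ q :=
    (hH.comp (Continuous.prodMk_right u)).norm.rpow_const (fun _ => Or.inr hq.le)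
  have h2 : 1 ≤ p / q := (one_le_div hq).2 hqp
  have h3 := Pool.Agent.W2helper75.BQ.jensen h1 (fun s => Real.rpow_nonneg (norm_nonneg _) _) h2
  unfold hr
  refine h3.trans (le_of_eq ?_)
  congr 1
  funext s
  rw [← Real.rpow_mul (norm_nonneg _), mul_div_cancel₀ _ hq.ne']

theorem eight {C q : ℝ} (hC : 1 ≤ C) (hq : 2 ≤ q) : (8 : ℝ) ^ q ≤ Real.exp (3 * C * q) := by
  rw [Real.rpow_def_of_pos (by norm_num)]
  refine Real.exp_le_exp.2 ?_
  have h1 : Real.log 8 ≤ 3 := by
    rw [Real.log_le_iff_le_exp (by norm_num)]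
    have h2 : (2 : ℝ) ≤ Real.exp 1 := by
      have := Real.add_one_le_exp (1 : ℝ)
      linarith
    have h3 : Real.exp 3 = Real.exp 1 ^ 3 := by
      rw [← Real.exp_nat_mul]; norm_num
    rw [h3]
    calc (8 : ℝ) = 2 ^ 3 := by norm_num
      _ ≤ Real.exp 1 ^ 3 := pow_le_pow_left₀ (by norm_num) h2 3
  have h4 : 0 ≤ q := by linarith
  have h5 : 3 ≤ 3 * C := by linarith
  calc Real.log 8 * q ≤ 3 * q := mul_le_mul_of_nonneg_right h1 h4
    _ ≤ 3 * C * q := mul_le_mul_of_nonneg_right h5 h4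

end LC3H2

open LC3H2 in
theorem p_LC3 : P_LC3 := by
  intro hBR hPT hBB C C₁ E p q hC hC₁ hE hq hCp μ hμ hMom F Y x R hF hY hx hsupp hgr hb2 hbq
  have hCq : 2 ≤ C * q := by nlinarith
  have hp64 : 64 ≤ p := by nlinarith
  have hqp : q ≤ p := by nlinarith
  have hp4 : 4 ≤ p := by linarith
  have hp0 : 0 < p := by linarith
  have hp2 : 2 ≤ p := by linarith
  have hq0 : 0 < q := by linarith
  obtain ⟨H, hH⟩ : ∃ H : ℝ → ℝ → ℂ, H = fun u s => F u s - x u := ⟨_, rfl⟩
  have hHc : Continuous (Function.uncurry H) := by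
    rw [hH]
    exact hF.sub (hx.comp continuous_fst)
  have hH0 : ∀ u, R ≤ |u| → ∀ s, H u s = 0 := by
    intro u hu s
    rw [hH]
    simp only [(hsupp u hu).1, ((hsupp u hu).2 s).1, sub_zero]
  rw [← hH] at hb2 hbq
  -- the divergence
  obtain ⟨Db, hDb⟩ : ∃ Db : ℝ → ℝ, Db = fun u => av fun s => br p (F u s) (x u) := ⟨_, rfl⟩
  have hgr' : ∀ u v, ‖x (u + v)‖ ^ p ≤ Real.exp (|v| / 8) * (‖x u‖ ^ p + 4 / p *
      |∫ t in u..(u + v), Db t|) := by
    rw [hDb]
    exact hgr
  have hDbc : Continuous Db := by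
    rw [hDb]
    refine av_cont ?_
    exact br_cont hp2 hF (hx.comp continuous_fst)
  have hbr0 : ∀ a b : ℂ, 0 ≤ br p a b := fun a b => le_trans (by positivity) (hBR p hp4 a b).1
  have hDb0 : ∀ u, 0 ≤ Db u := fun u => by
    rw [hDb]; exact av_nonneg fun t => hbr0 _ _
  have hDbs : HasCompactSupport Db := by
    refine cs_of (R := R) Db fun u hu => ?_
    rw [hDb]
    simp only [(hsupp u hu).1, ((hsupp u hu).2 _).1, br_zero hp0]
    exact av_const 0
  -- the function Psi
  obtain ⟨Ψ, hΨ⟩ : ∃ Ψ : ℝ → ℝ → ℝ, Ψ = fun u v => ‖x u‖ ^ (p - 2) * hr 2 H (u + v) +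
    ‖x u‖ ^ (p - q) * hr q H (u + v) + (1 / 8) ^ p * hr p H (u + v) := ⟨_, rfl⟩
  have hΨ0 : ∀ u v, 0 ≤ Ψ u v := by
    intro u v
    have h1 := hrn 2 H (u + v)
    have h2 := hrn q H (u + v)
    have h3 := hrn p H (u + v)
    rw [hΨ]
    positivity
  have hΨc : Continuous fun z : ℝ × ℝ => Ψ z.1 z.2 := by
    rw [hΨ]
    have hs : Continuous fun z : ℝ × ℝ => z.1 + z.2 := continuous_fst.add continuous_snd
    refine ((Continuous.mul ?_ ((hrc (by norm_num) hHc).comp hs)).add
      (Continuous.mul ?_ ((hrc hq0 hHc).comp hs))).add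
      (continuous_const.mul ((hrc hp0 hHc).comp hs))
    · exact ((hx.comp continuous_fst).norm).rpow_const (fun _ => Or.inr (by linarith))
    · exact ((hx.comp continuous_fst).norm).rpow_const (fun _ => Or.inr (by linarith))
  set K₀ : ℝ := 32 * C₁ ^ 2 * Real.exp (20 * C * q) with hK₀
  have hK₀0 : 0 < K₀ := by positivity
  -- first step
  have hA : ∀ u t, br p (Y u t) (x u) ≤ K₀ * ∫ v, Ψ u v ∂μ := by
    intro u t
    have i2 : Integrable (fun v => hr 2 H (u + v)) μ :=
      sh_int (hrc (by norm_num) hHc) (hrs (by norm_num) hH0) u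
    have iq : Integrable (fun v => hr q H (u + v)) μ := sh_int (hrc hq0 hHc) (hrs hq0 hH0) u
    have ip : Integrable (fun v => hr p H (u + v)) μ := sh_int (hrc hp0 hHc) (hrs hp0 hH0) u
    have n2 : 0 ≤ ∫ v, hr 2 H (u + v) ∂μ := integral_nonneg fun v => hrn _ _ _
    have nq : 0 ≤ ∫ v, hr q H (u + v) ∂μ := integral_nonneg fun v => hrn _ _ _
    have e1 := (hBR p hp4 (Y u t) (x u)).2.1
    have e2 := hBB C C₁ p q hC hC₁ hq hCp ‖x u‖ ‖Y u t - x u‖
      ((∫ v, hr 2 H (u + v) ∂μ) ^ (1 / 2 : ℝ)) (∫ v, hr q H (u + v) ∂μ) (norm_nonneg _)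
      (norm_nonneg _) (Real.rpow_nonneg n2 _) nq (hb2 u t) (hbq u t)
    have e3 : ((∫ v, hr 2 H (u + v) ∂μ) ^ (1 / 2 : ℝ)) ^ 2 = ∫ v, hr 2 H (u + v) ∂μ := by
      rw [← Real.rpow_natCast, ← Real.rpow_mul n2]
      norm_num
    have e4 : (∫ v, hr q H (u + v) ∂μ) ^ (p / q) ≤ ∫ v, hr p H (u + v) ∂μ := by
      refine (jen hμ ((one_le_div hq0).2 hqp) (hrc hq0 hHc) (hrs hq0 hH0)
        (fun w => hrn _ _ _) u).trans ?_
      refine integral_mono ?_ ip fun v => hr_pow hq0 hqp hHc (u + v)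
      exact sh_int (A := fun w => hr q H w ^ (p / q))
        ((hrc hq0 hHc).rpow_const (fun _ => Or.inr (by positivity)))
        ((hrs hq0 hH0).comp_left (g := fun y : ℝ => y ^ (p / q))
          (Real.zero_rpow (by positivity))) u
    have e5 : ∫ v, Ψ u v ∂μ = ‖x u‖ ^ (p - 2) * (∫ v, hr 2 H (u + v) ∂μ) +
        ‖x u‖ ^ (p - q) * (∫ v, hr q H (u + v) ∂μ) + (1 / 8) ^ p * ∫ v, hr p H (u + v) ∂μ := by
      have j2 : Integrable (fun v => ‖x u‖ ^ (p - 2) * hr 2 H (u + v)) μ := i2.const_mul _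
      have jq : Integrable (fun v => ‖x u‖ ^ (p - q) * hr q H (u + v)) μ := iq.const_mul _
      have jp : Integrable (fun v => (1 / 8 : ℝ) ^ p * hr p H (u + v)) μ := ip.const_mul _
      have j2q : Integrable (fun v => ‖x u‖ ^ (p - 2) * hr 2 H (u + v) +
        ‖x u‖ ^ (p - q) * hr q H (u + v)) μ := j2.add jq
      rw [hΨ]
      rw [integral_add j2q jp, integral_add j2 jq, integral_const_mul, integral_const_mul,
        integral_const_mul]
    refine e1.trans (e2.trans ?_)
    rw [e3, e5]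
    gcongr
  -- second step
  have hB : ∀ u v, Ψ u v ≤ 100 * 8 ^ q / p * (Real.exp (|v| / 8) *
      (Db (u + v) + 4 * |∫ t in (u + v)..u, Db t|)) := by
    intro u v
    set G : ℝ := Real.exp (|v| / 8) * (4 / p * |∫ t in (u + v)..u, Db t|) with hG
    have hG0 : 0 ≤ G := by positivity
    have hHv : Continuous (H (u + v)) := hHc.comp (Continuous.prodMk_right (u + v))
    have hFv : Continuous (F (u + v)) := hF.comp (Continuous.prodMk_right (u + v))
    have c2 : Continuous fun s => ‖x u‖ ^ (p - 2) * ‖H (u + v) s‖ ^ (2 : ℝ) :=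
      continuous_const.mul (hHv.norm.rpow_const (fun _ => Or.inr (by norm_num)))
    have cq : Continuous fun s => ‖x u‖ ^ (p - q) * ‖H (u + v) s‖ ^ q :=
      continuous_const.mul (hHv.norm.rpow_const (fun _ => Or.inr hq0.le))
    have cp : Continuous fun s => (1 / 8 : ℝ) ^ p * ‖H (u + v) s‖ ^ p :=
      continuous_const.mul (hHv.norm.rpow_const (fun _ => Or.inr hp0.le))
    have cb : Continuous fun s => br p (F (u + v) s) (x (u + v)) :=
      br_cont hp2 hFv continuous_const
    have c2q : Continuous fun s => ‖x u‖ ^ (p - 2) * ‖H (u + v) s‖ ^ (2 : ℝ) +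
        ‖x u‖ ^ (p - q) * ‖H (u + v) s‖ ^ q := c2.add cq
    have cb2 : Continuous fun s => Real.exp (|v| / 8) / p * br p (F (u + v) s) (x (u + v)) :=
      continuous_const.mul cb
    have e1 : Ψ u v = av fun s => ‖x u‖ ^ (p - 2) * ‖H (u + v) s‖ ^ (2 : ℝ) +
        ‖x u‖ ^ (p - q) * ‖H (u + v) s‖ ^ q + (1 / 8 : ℝ) ^ p * ‖H (u + v) s‖ ^ p := by
      rw [av_add c2q cp, av_add c2 cq, av_mul_left, av_mul_left, av_mul_left, hΨ]
      rfl
    have e2 : (av fun s => 100 * 8 ^ q * (Real.exp (|v| / 8) / p *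
        br p (F (u + v) s) (x (u + v)) + G)) =
        100 * 8 ^ q * (Real.exp (|v| / 8) / p * Db (u + v) + G) := by
      rw [av_mul_left, av_add cb2 continuous_const, av_mul_left, av_const, hDb]
    have e3 : Ψ u v ≤ 100 * 8 ^ q * (Real.exp (|v| / 8) / p * Db (u + v) + G) := by
      rw [e1, ← e2]
      refine av_mono (c2q.add cp) (continuous_const.mul (cb2.add continuous_const)) fun s => ?_
      have h1 := hBR p hp4 (F (u + v) s) (x (u + v))
      have h2 : ‖F (u + v) s - x (u + v)‖ = ‖H (u + v) s‖ := by rw [hH]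
      rw [h2] at h1
      have h3 := hPT p q hp4 hq hqp ‖H (u + v) s‖ ‖x (u + v)‖ ‖x u‖ G
        (br p (F (u + v) s) (x (u + v))) (Real.exp (|v| / 8)) (norm_nonneg _) (norm_nonneg _)
        (norm_nonneg _) hG0 (hbr0 _ _) (Real.one_le_exp (by positivity)) h1.1 h1.2.2 (by
          have h5 := hgr' (u + v) (-v)
          rw [abs_neg, add_neg_cancel_right] at h5
          rw [hG]
          linarith)
      rw [Real.rpow_two]
      exact h3
    refine e3.trans (le_of_eq ?_)
    rw [hG]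
    field_simp
  -- third step
  set K : ℝ := K₀ * (100 * 8 ^ q) with hK
  have hK0 : 0 < K := by positivity
  obtain ⟨Φ, hΦ⟩ : ∃ Φ : ℝ → ℝ, Φ = fun u => av fun t => br p (Y u t) (x u) := ⟨_, rfl⟩
  have hΦ0 : ∀ u, 0 ≤ Φ u := fun u => by
    rw [hΦ]; exact av_nonneg fun t => hbr0 _ _
  have hΦc : Continuous Φ := by
    rw [hΦ]
    refine av_cont ?_
    exact br_cont hp2 hY (hx.comp continuous_fst)
  have hΦm : Measurable Φ := hΦc.measurable
  have hΨm : Measurable fun z : ℝ × ℝ => K₀ * Ψ z.1 z.2 := (continuous_const.mul hΨc).measurable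
  have hpt : ∀ u v, K₀ * Ψ u v ≤
      K / p * (Real.exp (|v| / 8) * (Db (u + v) + 4 * |∫ t in (u + v)..u, Db t|)) := by
    intro u v
    refine (mul_le_mul_of_nonneg_left (hB u v) hK₀0.le).trans (le_of_eq ?_)
    rw [hK]
    ring
  have hJ : ∀ u, ENNReal.ofReal (Φ u) ≤ ∫⁻ v, ENNReal.ofReal (K₀ * Ψ u v) ∂μ := by
    intro u
    have h4 : Φ u ≤ ∫ v, K₀ * Ψ u v ∂μ := by
      rw [integral_const_mul, hΦ]
      have h6 : (av fun t => br p (Y u t) (x u)) ≤ av fun _ => K₀ * ∫ v, Ψ u v ∂μ :=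
        av_mono (br_cont hp2 (hY.comp (Continuous.prodMk_right u)) continuous_const)
          continuous_const fun t => hA u t
      rwa [av_const] at h6
    refine (ENNReal.ofReal_le_ofReal h4).trans ?_
    rw [integral_eq_lintegral_of_nonneg_ae
      (Eventually.of_forall fun v => mul_nonneg hK₀0.le (hΨ0 _ _))
      (hΨm.comp measurable_prodMk_left).aestronglyMeasurable]
    exact ENNReal.ofReal_toReal_le
  set D : ℝ≥0∞ := ENNReal.ofReal (∫ u, Db u) with hD
  have hmain : ∫⁻ u, ENNReal.ofReal (Φ u) ≤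
      ENNReal.ofReal (K / p) * (4 * (ENNReal.ofReal E * D)) := by
    calc ∫⁻ u, ENNReal.ofReal (Φ u)
        ≤ ∫⁻ u, ∫⁻ v, ENNReal.ofReal (K₀ * Ψ u v) ∂μ := lintegral_mono hJ
      _ = ∫⁻ v, (∫⁻ u, ENNReal.ofReal (K₀ * Ψ u v)) ∂μ :=
          lintegral_lintegral_swap (f := fun u v => ENNReal.ofReal (K₀ * Ψ u v))
            hΨm.ennreal_ofReal.aemeasurable
      _ ≤ ∫⁻ v, ENNReal.ofReal (K / p) * (ENNReal.ofReal (Real.exp (|v| / 8)) *
            (D + 4 * (ENNReal.ofReal |v| * D))) ∂μ := by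
          refine lintegral_mono fun v => ?_
          have hb : ∀ u, ENNReal.ofReal (K₀ * Ψ u v) ≤ ENNReal.ofReal (K / p) *
              (ENNReal.ofReal (Real.exp (|v| / 8)) * (ENNReal.ofReal (Db (u + v)) +
                4 * ENNReal.ofReal |∫ t in (u + v)..u, Db t|)) := by
            intro u
            refine (ENNReal.ofReal_le_ofReal (hpt u v)).trans (le_of_eq ?_)
            rw [ENNReal.ofReal_mul (by positivity), ENNReal.ofReal_mul (by positivity),
              ENNReal.ofReal_add (hDb0 _) (by positivity), ENNReal.ofReal_mul (by norm_num),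
              ENNReal.ofReal_ofNat]
          refine (lintegral_mono hb).trans ?_
          have hmm : Measurable fun u => ENNReal.ofReal (Db (u + v)) :=
            (hDbc.comp (continuous_add_const v)).measurable.ennreal_ofReal
          rw [lintegral_const_mul' _ _ ENNReal.ofReal_ne_top,
            lintegral_const_mul' _ _ ENNReal.ofReal_ne_top, lintegral_add_left hmm,
            lintegral_const_mul' _ _ (by norm_num), lint_shift hDbc hDbs hDb0]
          gcongr
          exact lint_abs hDbc hDbs hDb0 v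
      _ ≤ ∫⁻ v, ENNReal.ofReal (K / p) * (4 * (ENNReal.ofReal ((1 + |v|) *
            Real.exp (|v| / 8)) * D)) ∂μ := by
          refine lintegral_mono fun v => ?_
          gcongr ENNReal.ofReal (K / p) * ?_
          rw [ENNReal.ofReal_mul (by positivity), ENNReal.ofReal_add (by norm_num) (abs_nonneg v),
            ENNReal.ofReal_one]
          have e1 : 4 * ((1 + ENNReal.ofReal |v|) * ENNReal.ofReal (Real.exp (|v| / 8)) * D) =
              ENNReal.ofReal (Real.exp (|v| / 8)) * (4 * D + 4 * (ENNReal.ofReal |v| * D)) := by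
            ring
          rw [e1]
          gcongr
          calc D = 1 * D := (one_mul D).symm
            _ ≤ 4 * D := by gcongr; norm_num
      _ = ENNReal.ofReal (K / p) * (4 * (Mom μ * D)) := by
          rw [lintegral_const_mul' _ _ ENNReal.ofReal_ne_top,
            lintegral_const_mul' _ _ (by norm_num), lintegral_mul_const' _ _ ENNReal.ofReal_ne_top]
          rfl
      _ ≤ ENNReal.ofReal (K / p) * (4 * (ENNReal.ofReal E * D)) := by
          gcongr
  have hDi : 0 ≤ ∫ u, Db u := integral_nonneg hDb0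
  have hfin : ENNReal.ofReal (K / p) * (4 * (ENNReal.ofReal E * D)) =
      ENNReal.ofReal (K / p * (4 * (E * ∫ u, Db u))) := by
    rw [ENNReal.ofReal_mul (by positivity), ENNReal.ofReal_mul (by norm_num),
      ENNReal.ofReal_mul (by linarith), ENNReal.ofReal_ofNat]
  rw [hfin] at hmain
  have h6 : ∫ u, Φ u ≤ K / p * (4 * (E * ∫ u, Db u)) := by
    rw [integral_eq_lintegral_of_nonneg_ae (Eventually.of_forall hΦ0) hΦm.aestronglyMeasurable]
    exact ENNReal.toReal_le_of_le_ofReal (by positivity) hmain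
  rw [hΦ, hDb] at h6
  rw [hDb] at hDi
  refine h6.trans ?_
  have e2 : K / p * (4 * (E * ∫ u, av fun s => br p (F u s) (x u))) =
      12800 * E * C₁ ^ 2 * (Real.exp (20 * C * q) * 8 ^ q) / p *
        ∫ u, av fun s => br p (F u s) (x u) := by
    rw [hK, hK₀]; ring
  have e3 : Real.exp (20 * C * q) * 8 ^ q ≤ Real.exp (23 * C * q) := by
    calc Real.exp (20 * C * q) * 8 ^ q ≤ Real.exp (20 * C * q) * Real.exp (3 * C * q) :=
          mul_le_mul_of_nonneg_left (eight hC hq) (Real.exp_pos _).le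
      _ = Real.exp (23 * C * q) := by
          rw [← Real.exp_add]; congr 1; ring
  rw [e2]
  gcongr

end Pool.Agent.W2helper3.BQ
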